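import Pool.Agent.DED.Modify

/-!
# No uniformly smooth flow on the two-torus causes double exponential decay

Functions on the torus `ℝ² / (2πℤ)²` are functions on the plane `ℝ × ℝ` that are `2π`-periodic in
both variables; `cell` is the period cell over which they are integrated.
-/

open scoped ContDiff
open MeasureTheory Set

noncomputable section

namespace Pool.Agent.Results.MP_a8b634_an.NoDoubleExp

/-- The half open period cell `(0, 2π] × (0, 2π]`. -/
def cell : Set (ℝ × ℝ) := Ioc 0 (2 * Real.pi) ×ˢ Ioc 0 (2 * Real.pi)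

/-- Functions on the torus: `2π`-periodic in both variables. -/
def Periodic2 {E : Type*} (f : ℝ × ℝ → E) : Prop :=
  ∀ x : ℝ × ℝ, f (x.1 + 2 * Real.pi, x.2) = f x ∧ f (x.1, x.2 + 2 * Real.pi) = f x

/-- Partial derivative in the first variable. -/
def dx {E : Type*} [NormedAddCommGroup E] [NormedSpace ℝ E] (f : ℝ × ℝ → E) (x : ℝ × ℝ) : E :=
  fderiv ℝ f x (1, 0)

/-- Partial derivative in the second variable. -/
def dy {E : Type*} [NormedAddCommGroup E] [NormedSpace ℝ E] (f : ℝ × ℝ → E) (x : ℝ × ℝ) : E :=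
  fderiv ℝ f x (0, 1)

/-- The `L²` norm on the torus. -/
def L2norm (f : ℝ × ℝ → ℝ) : ℝ := Real.sqrt (∫ x in cell, f x ^ 2)

/-- Uniformly smooth velocity fields, `u ∈ L^∞([0,∞); W^{n,∞}(𝕋²))` for every `n`: measurable in
time, smooth and periodic in space for almost every time, and for every `n` the spatial derivatives
of order `n` are bounded by one constant for almost every time and every point. -/
structure UniformlySmooth (u : ℝ → ℝ × ℝ → ℝ × ℝ) : Prop where
  measurable_time : ∀ x, AEStronglyMeasurable (fun t => u t x) (volume.restrict (Ioi 0))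
  smooth : ∀ᵐ t : ℝ, 0 < t → ContDiff ℝ ∞ (u t) ∧ Periodic2 (u t)
  bounded : ∀ n : ℕ, ∃ C : ℝ, ∀ᵐ t : ℝ, 0 < t → ∀ x, ‖iteratedFDeriv ℝ n (u t) x‖ ≤ C

/-- Incompressibility, `∇ · u_t = 0` for almost every time. -/
def Incompressible (u : ℝ → ℝ × ℝ → ℝ × ℝ) : Prop :=
  ∀ᵐ t : ℝ, 0 < t → ∀ x, (dx (u t) x).1 + (dy (u t) x).2 = 0

/-- `θ` is a solution of `∂ₜθ = Δθ + u · ∇θ` on `[0,∞) × 𝕋²` in the weak sense (with `∇ · u = 0`):
it is locally bounded in time with values in `L²(𝕋²)`, weakly measurable in time, and the equation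
holds at every time `t ≥ 0` against every smooth test function `g` on the torus. In particular
every classical solution is a solution in this sense. -/
structure IsSolution (u : ℝ → ℝ × ℝ → ℝ × ℝ) (θ : ℝ → ℝ × ℝ → ℝ) : Prop where
  periodic : ∀ t, 0 ≤ t → Periodic2 (θ t)
  memLp : ∀ t, 0 ≤ t → MemLp (θ t) 2 (volume.restrict cell)
  locally_bounded : ∀ T : ℝ, ∃ C : ℝ, ∀ t ∈ Icc 0 T, L2norm (θ t) ≤ C
  weakly_measurable : ∀ g : ℝ × ℝ → ℝ, ContDiff ℝ ∞ g → Periodic2 g →
    AEStronglyMeasurable (fun t => ∫ x in cell, θ t x * g x) (volume.restrict (Ioi 0))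
  equation : ∀ g : ℝ × ℝ → ℝ, ContDiff ℝ ∞ g → Periodic2 g → ∀ t, 0 ≤ t →
    ∫ x in cell, θ t x * g x = (∫ x in cell, θ 0 x * g x) +
      ∫ s in (0 : ℝ)..t, ∫ x in cell, θ s x *
        (dx (dx g) x + dy (dy g) x - ((u s x).1 * dx g x + (u s x).2 * dy g x))

/-- `u` causes double exponential decay: for some `C > 0` there is a solution with smooth nonzero
initial data whose `L²` norm is at most `C exp(-C⁻¹ exp(C⁻¹ t))` times the initial one for all
`t ≥ 0`. -/
def CausesDoubleExponentialDecay (u : ℝ → ℝ × ℝ → ℝ × ℝ) : Prop :=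
  ∃ C : ℝ, 0 < C ∧ ∃ θ : ℝ → ℝ × ℝ → ℝ, IsSolution u θ ∧ ContDiff ℝ ∞ (θ 0) ∧ (∃ x, θ 0 x ≠ 0) ∧
    ∀ t : ℝ, 0 ≤ t →
      L2norm (θ t) ≤ C * Real.exp (-(C⁻¹ * Real.exp (C⁻¹ * t))) * L2norm (θ 0)

/-- No uniformly smooth incompressible velocity field on the two-torus causes double exponential
decay. -/
theorem result :
    ¬ ∃ u : ℝ → ℝ × ℝ → ℝ × ℝ,
      UniformlySmooth u ∧ Incompressible u ∧ CausesDoubleExponentialDecay u := by
  rintro ⟨u, hu, hdiv, C, hC, θ, hθ, h0, hne, hup⟩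
  have hw : Pool.Agent.DED.WeakSol u θ := by
    refine ⟨hθ.memLp, ?_, hθ.weakly_measurable, hθ.equation⟩
    intro T
    obtain ⟨D, hD⟩ := hθ.locally_bounded T
    refine ⟨D ^ 2, fun t ht => ?_⟩
    have h1 := hD t ht
    unfold L2norm at h1
    have h2 : 0 ≤ ∫ x in cell, θ t x ^ 2 := integral_nonneg fun x => sq_nonneg _
    have h3 := pow_le_pow_left₀ (Real.sqrt_nonneg _) h1 2
    rw [Real.sq_sqrt h2] at h3
    exact h3
  have hpos : 0 < L2norm (θ 0) :=
    Real.sqrt_pos.2 (Pool.Agent.DED.pos_of_ne h0.continuous (hθ.periodic 0 le_rfl) hne)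
  refine Pool.Agent.DED.double_exp_absurd (Nt := fun t => L2norm (θ t)) hpos ?_ hC hup
  intro ε hε
  exact Pool.Agent.DED.pde_main_ae hu.measurable_time hu.smooth hu.bounded hdiv hw h0
    (hθ.periodic 0 le_rfl) hne hε

end Pool.Agent.Results.MP_a8b634_an.NoDoubleExp
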